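import Mathlib

namespace Pool.Agent.Results.MP_70096d_gt.Products
open Set Topology

universe u v

/-- Every (nonempty) directed subset has a supremum. -/
def IsDcpo (P : Type u) [PartialOrder P] : Prop :=
  ∀ D : Set P, D.Nonempty → DirectedOn (· ≤ ·) D → ∃ a, IsLUB D a

set_option warn.classDefReducibility false in
/-- The Scott topology: upper sets inaccessible by directed suprema. -/
def scott (P : Type u) [PartialOrder P] : TopologicalSpace P where
  IsOpen U := IsUpperSet U ∧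
    ∀ (D : Set P) (a : P), D.Nonempty → DirectedOn (· ≤ ·) D → IsLUB D a → a ∈ U → (D ∩ U).Nonempty
  isOpen_univ := ⟨isUpperSet_univ, fun _ _ h _ _ _ => by simpa using h⟩
  isOpen_inter := by
    rintro U V ⟨hU, hU'⟩ ⟨hV, hV'⟩
    refine ⟨hU.inter hV, fun D a h1 h2 h3 h4 => ?_⟩
    obtain ⟨x, hx, hx'⟩ := hU' D a h1 h2 h3 h4.1
    obtain ⟨y, hy, hy'⟩ := hV' D a h1 h2 h3 h4.2
    obtain ⟨z, hz, h5, h6⟩ := h2 x hx y hy
    exact ⟨z, hz, hU h5 hx', hV h6 hy'⟩
  isOpen_sUnion := by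
    intro S hS
    refine ⟨isUpperSet_sUnion fun U hU => (hS U hU).1, fun D a h1 h2 h3 ⟨U, hU, h4⟩ => ?_⟩
    obtain ⟨x, hx, hx'⟩ := (hS U hU).2 D a h1 h2 h3 h4
    exact ⟨x, hx, U, hU, hx'⟩

/-- A set is saturated if it is an intersection of open sets. -/
def Saturated {X : Type u} (t : TopologicalSpace X) (K : Set X) : Prop :=
  ∃ S : Set (Set X), (∀ U ∈ S, IsOpen[t] U) ∧ K = ⋂₀ S

/-- A `T_0` space is well-filtered if, whenever the intersection of a filtered family of compact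
saturated sets lies in an open set, some member of the family does. -/
def WellFiltered {X : Type u} (t : TopologicalSpace X) : Prop :=
  @T0Space X t ∧ ∀ F : Set (Set X), F.Nonempty → DirectedOn (· ⊇ ·) F →
    (∀ K ∈ F, @IsCompact X t K ∧ Saturated t K) →
    ∀ U : Set X, IsOpen[t] U → ⋂₀ F ⊆ U → ∃ K ∈ F, K ⊆ U

/-- A topology is compatible with the order if point closures are the principal ideals. -/
def Compatible {P : Type u} [PartialOrder P] (t : TopologicalSpace P) : Prop :=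
  ∀ x : P, @closure P t {x} = Iic x

/-- A poset is well-filtered if some compatible topology is well-filtered. -/
def WFPoset (P : Type u) [PartialOrder P] : Prop :=
  ∃ t : TopologicalSpace P, Compatible t ∧ WellFiltered t

section General
variable {P : Type u} {Q : Type v} [PartialOrder P] [PartialOrder Q]

theorem open_iff {U : Set P} : IsOpen[scott P] U ↔ IsUpperSet U ∧
    ∀ (D : Set P) (a : P), D.Nonempty → DirectedOn (· ≤ ·) D → IsLUB D a → a ∈ U →
      (D ∩ U).Nonempty := Iff.rfl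

theorem closed_iff {C : Set P} : IsClosed[scott P] C ↔ IsLowerSet C ∧
    ∀ (D : Set P) (a : P), D.Nonempty → DirectedOn (· ≤ ·) D → IsLUB D a → D ⊆ C → a ∈ C := by
  rw [← @isOpen_compl_iff P C (scott P), open_iff, isUpperSet_compl]
  refine and_congr_right fun _ => forall₅_congr fun D a _ _ _ => ⟨fun h hD => ?_, fun h ha => ?_⟩
  · by_contra ha
    obtain ⟨x, hx, hx'⟩ := h ha
    exact hx' (hD hx)
  · by_contra hn
    exact ha (h fun x hx => by_contra fun hx' => hn ⟨x, hx, hx'⟩)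

theorem closed_Iic (a : P) : IsClosed[scott P] (Iic a) :=
  closed_iff.2 ⟨isLowerSet_Iic a, fun _ _ _ _ h hD => h.2 hD⟩

theorem sat_of_upper {K : Set P} (h : IsUpperSet K) : Saturated (scott P) K := by
  refine ⟨{U | ∃ x ∉ K, U = (Iic x)ᶜ}, ?_, ?_⟩
  · rintro U ⟨x, -, rfl⟩
    exact (@isOpen_compl_iff P _ (scott P)).2 (closed_Iic x)
  · ext y
    constructor
    · rintro hy U ⟨x, hx, rfl⟩ hyx
      exact hx (h hyx hy)
    · intro hy
      by_contra hn
      exact hy _ ⟨y, hn, rfl⟩ (le_refl y)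

theorem upper_of_sat {K : Set P} (h : Saturated (scott P) K) : IsUpperSet K := by
  obtain ⟨S, hS, rfl⟩ := h
  exact isUpperSet_sInter fun U hU => (hS U hU).1

theorem t0 : @T0Space P (scott P) := by
  let _ := scott P
  refine ⟨fun x y h => le_antisymm ?_ ?_⟩
  · exact (h.mem_closed_iff (closed_Iic y)).2 (le_refl y)
  · exact (h.mem_closed_iff (closed_Iic x)).1 (le_refl x)

theorem cont_of {f : P → Q} (hm : Monotone f)
    (hs : ∀ (D : Set P) (a : P), D.Nonempty → IsLUB D a → IsLUB (f '' D) (f a)) :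
    Continuous[scott P, scott Q] f := by
  refine (@continuous_def P Q (scott P) (scott Q) f).2 fun U hU => ⟨fun x y h hx => hU.1 (hm h) hx,
    fun D a h1 h2 h3 h4 => ?_⟩
  obtain ⟨_, ⟨x, hx, rfl⟩, hx'⟩ := hU.2 (f '' D) (f a) (h1.image f)
    (h2.mono_comp hm) (hs D a h1 h3) h4
  exact ⟨x, hx, hx'⟩

theorem cont_fst : Continuous[scott (P × Q), scott P] Prod.fst :=
  cont_of monotone_fst fun _ _ _ h => (isLUB_prod.1 h).1

theorem cont_snd : Continuous[scott (P × Q), scott Q] Prod.snd :=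
  cont_of monotone_snd fun _ _ _ h => (isLUB_prod.1 h).2

theorem cont_left (y : Q) : Continuous[scott P, scott (P × Q)] fun x => (x, y) := by
  refine cont_of (fun a b h => ⟨h, le_refl y⟩) fun D a h1 h2 => isLUB_prod.2 ⟨?_, ?_⟩
  · simpa [image_image] using h2
  · simp [image_image, h1.image_const]

theorem cont_right (x : P) : Continuous[scott Q, scott (P × Q)] fun y => (x, y) := by
  refine cont_of (fun a b h => ⟨le_refl x, h⟩) fun D a h1 h2 => isLUB_prod.2 ⟨?_, ?_⟩
  · simp [image_image, h1.image_const]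
  · simpa [image_image] using h2

theorem compact_up {S : Set P} (h : @IsCompact P (scott P) S) :
    @IsCompact P (scott P) (upperClosure S : Set P) := by
  let _ := scott P
  refine isCompact_of_finite_subcover fun {ι} U hU hc => ?_
  obtain ⟨t, ht⟩ := h.elim_finite_subcover U hU (subset_upperClosure.trans hc)
  refine ⟨t, ?_⟩
  rintro y ⟨x, hx, hxy⟩
  obtain ⟨i, hi, hxi⟩ := mem_iUnion₂.1 (ht hx)
  exact mem_iUnion₂.2 ⟨i, hi, (hU i).1 hxy hxi⟩

/-- Rudin-type lemma: a minimal closed set meeting all members of a family of compact sets. -/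
theorem exists_min {X : Type u} [TopologicalSpace X] (F : Set (Set X))
    (hF : ∀ K ∈ F, IsCompact K) (A0 : Set X) (h0 : IsClosed A0)
    (h1 : ∀ K ∈ F, (K ∩ A0).Nonempty) :
    ∃ A ⊆ A0, IsClosed A ∧ (∀ K ∈ F, (K ∩ A).Nonempty) ∧
      ∀ B, IsClosed B → (∀ K ∈ F, (K ∩ A ∩ B).Nonempty) → A ⊆ B := by
  obtain ⟨A, hA, hm⟩ := zorn_superset_nonempty
    {A : Set X | IsClosed A ∧ ∀ K ∈ F, (K ∩ A).Nonempty} (fun c hc hch hne => by
      refine ⟨⋂₀ c, ⟨isClosed_sInter fun A hA => (hc hA).1, fun K hK => ?_⟩,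
        fun A hA => sInter_subset_of_mem hA⟩
      have : Nonempty c := hne.to_subtype
      rw [sInter_eq_iInter]
      by_contra hn
      rw [not_nonempty_iff_eq_empty] at hn
      obtain ⟨A, hA⟩ := (hF K hK).elim_directed_family_closed (fun A : c => (A : Set X))
        (fun A => (hc A.2).1) hn (fun x y =>
          (hch.total x.2 y.2).elim (fun h => ⟨x, Subset.rfl, h⟩) fun h => ⟨y, h, Subset.rfl⟩)
      exact ((hc A.2).2 K hK).ne_empty hA) A0 ⟨h0, h1⟩
  refine ⟨A, hA, hm.prop.1, hm.prop.2, fun B hB h => ?_⟩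
  have := hm.2 (y := A ∩ B) ⟨hm.prop.1.inter hB, fun K hK => by
    simpa [inter_assoc] using h K hK⟩ inter_subset_left
  exact this.trans inter_subset_right

theorem top_of {X : Type*} [TopologicalSpace X] {f : X → P}
    (hf : Continuous[_, scott P] f) (hP : WellFiltered (scott P)) (F : Set (Set X))
    (hne : F.Nonempty) (hd : DirectedOn (· ⊇ ·) F) (hF : ∀ K ∈ F, IsCompact K) (A : Set X)
    (hA : IsClosed A) (h1 : ∀ K ∈ F, (K ∩ A).Nonempty)
    (hm : ∀ B, IsClosed B → (∀ K ∈ F, (K ∩ A ∩ B).Nonempty) → A ⊆ B) :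
    ∃ a, (∀ z ∈ A, f z ≤ a) ∧
      ∀ C, IsClosed[scott P] C → a ∉ C → ∃ K ∈ F, ∀ z ∈ K ∩ A, f z ∉ C := by
  let _ := scott P
  let L : Set X → Set P := fun K => upperClosure (f '' (K ∩ A))
  have hL : ¬ ⋂₀ (L '' F) ⊆ (closure (f '' A))ᶜ := by
    intro h
    obtain ⟨_, ⟨K, hK, rfl⟩, hK'⟩ := hP.2 (L '' F) (hne.image L) (by
      rintro _ ⟨K, hK, rfl⟩ _ ⟨K', hK', rfl⟩
      obtain ⟨M, hM, h2, h3⟩ := hd K hK K' hK'
      refine ⟨L M, ⟨M, hM, rfl⟩, ?_, ?_⟩
      · rintro y ⟨_, ⟨z, hz, rfl⟩, hy⟩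
        exact ⟨_, ⟨z, ⟨h2 hz.1, hz.2⟩, rfl⟩, hy⟩
      · rintro y ⟨_, ⟨z, hz, rfl⟩, hy⟩
        exact ⟨_, ⟨z, ⟨h3 hz.1, hz.2⟩, rfl⟩, hy⟩) (by
      rintro _ ⟨K, hK, rfl⟩
      exact ⟨compact_up (((hF K hK).inter_right hA).image hf),
        sat_of_upper (upperClosure _).upper⟩) _ isClosed_closure.isOpen_compl h
    obtain ⟨z, hz⟩ := h1 K hK
    exact hK' (subset_upperClosure ⟨z, hz, rfl⟩) (subset_closure ⟨z, hz.2, rfl⟩)
  obtain ⟨a, ha, ha'⟩ := not_subset.1 hL
  refine ⟨a, hm (f ⁻¹' Iic a) ((closed_Iic a).preimage hf) fun K hK => ?_, fun C hC haC => ?_⟩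
  · obtain ⟨_, ⟨z, hz, rfl⟩, hy⟩ := ha _ ⟨K, hK, rfl⟩
    exact ⟨z, hz, hy⟩
  · by_contra hn
    push Not at hn
    have := hm (f ⁻¹' C) (hC.preimage hf) fun K hK => by
      obtain ⟨z, hz, hz'⟩ := hn K hK
      exact ⟨z, hz, hz'⟩
    exact haC (closure_minimal (image_subset_iff.2 this) hC (not_not.1 ha'))

theorem prod_wf (hP : WellFiltered (scott P)) (hQ : WellFiltered (scott Q)) :
    WellFiltered (scott (P × Q)) := by
  refine ⟨t0, fun F hne hd hF U hU hFU => ?_⟩
  let T := scott (P × Q)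
  by_contra hn
  push Not at hn
  obtain ⟨A, hAU, hA, h1, hm⟩ := exists_min F (fun K hK => (hF K hK).1) Uᶜ hU.isClosed_compl
    (fun K hK => by
      obtain ⟨z, hz, hz'⟩ := not_subset.1 (hn K hK)
      exact ⟨z, hz, hz'⟩)
  obtain ⟨a, ha, ha'⟩ := top_of cont_fst hP F hne hd (fun K hK => (hF K hK).1) A hA h1 hm
  obtain ⟨b, hb, hb'⟩ := top_of cont_snd hQ F hne hd (fun K hK => (hF K hK).1) A hA h1 hm
  have hab : (a, b) ∉ A := fun h => hAU h (hFU fun K hK => by
    obtain ⟨z, hz⟩ := h1 K hK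
    exact upper_of_sat (hF K hK).2 (show z ≤ (a, b) from ⟨ha z hz.2, hb z hz.2⟩) hz.1)
  have hl : ∀ y : Q, IsClosed[scott P] ((fun x => (x, y)) ⁻¹' A) := fun y =>
    @IsClosed.preimage P (P × Q) (scott P) T _ (cont_left y) _ hA
  have hr : ∀ x : P, IsClosed[scott Q] ((fun y => (x, y)) ⁻¹' A) := fun x =>
    @IsClosed.preimage Q (P × Q) (scott Q) T _ (cont_right x) _ hA
  obtain ⟨K0, hK0, hK0'⟩ := ha' _ (hl b) hab
  let B : F → Set P := fun K => {x | ∀ z ∈ (K : Set (P × Q)) ∩ A, (x, z.2) ∉ A}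
  have hB : ∀ K, IsOpen[scott P] (B K) := by
    intro K
    refine ⟨fun x x' hx h z hz hz' => h z hz ((closed_iff.1 hA).1
      (show (x, z.2) ≤ (x', z.2) from ⟨hx, le_refl _⟩) hz'), fun D s hD1 hD2 hD3 hs => ?_⟩
    let _ := scott Q
    have hc : IsCompact (Prod.snd '' ((K : Set (P × Q)) ∩ A)) :=
      ((hF K K.2).1.inter_right hA).image cont_snd
    have : Nonempty D := hD1.to_subtype
    obtain ⟨d, hd'⟩ := hc.elim_directed_family_closed
      (fun d : D => (fun y => ((d : P), y)) ⁻¹' A) (fun d => hr d) (by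
        rw [eq_empty_iff_forall_notMem]
        rintro _ ⟨⟨z, hz, rfl⟩, h⟩
        rw [mem_iInter] at h
        exact hs z hz ((closed_iff.1 (hl z.2)).2 D s hD1 hD2 hD3 fun d hd => h ⟨d, hd⟩)) (by
        intro d d'
        obtain ⟨e, he, h2, h3⟩ := hD2 d d.2 d' d'.2
        exact ⟨⟨e, he⟩, fun y hy => (closed_iff.1 (hl y)).1 h2 hy,
          fun y hy => (closed_iff.1 (hl y)).1 h3 hy⟩)
    refine ⟨d, d.2, fun z hz hz' => ?_⟩
    exact eq_empty_iff_forall_notMem.1 hd' z.2 ⟨⟨z, hz, rfl⟩, hz'⟩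
  let _ := scott P
  have hc : IsCompact (Prod.fst '' (K0 ∩ A)) := ((hF K0 hK0).1.inter_right hA).image cont_fst
  have : Nonempty F := hne.to_subtype
  obtain ⟨K, hK⟩ := hc.elim_directed_cover B hB (by
      rintro _ ⟨z, hz, rfl⟩
      obtain ⟨K, hK, hK'⟩ := hb' _ (hr z.1) (hK0' z hz)
      exact mem_iUnion.2 ⟨⟨K, hK⟩, hK'⟩) (by
      intro K K'
      obtain ⟨M, hM, h2, h3⟩ := hd K K.2 K' K'.2
      exact ⟨⟨M, hM⟩, fun x hx z hz => hx z ⟨h2 hz.1, hz.2⟩,
        fun x hx z hz => hx z ⟨h3 hz.1, hz.2⟩⟩)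
  obtain ⟨M, hM, h2, h3⟩ := hd K K.2 K0 hK0
  obtain ⟨z, hz⟩ := h1 M hM
  exact hK ⟨z, ⟨h3 hz.1, hz.2⟩, rfl⟩ z ⟨h2 hz.1, hz.2⟩ hz.2

end General

/-- Johnstone's dcpo with a top element added. -/
inductive J : Type
  | fin (m k : ℕ) : J
  | inf (m : ℕ) : J
  | top : J

def J.le : J → J → Prop
  | .fin m k, .fin m' k' => m = m' ∧ k ≤ k'
  | .fin m k, .inf m' => m = m' ∨ k ≤ m'
  | .inf m, .inf m' => m = m'
  | _, .top => True
  | _, _ => False

instance : PartialOrder J where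
  le := J.le
  le_refl x := by cases x <;> simp [J.le]
  le_trans x y z := by
    cases x <;> cases y <;> cases z <;> simp only [J.le] <;> first | omega | simp
  le_antisymm x y := by
    cases x <;> cases y <;> simp only [J.le] <;> first | omega | (simp; done) | (simp; omega)

theorem le_def (x y : J) : x ≤ y ↔ J.le x y := Iff.rfl

theorem le_top' (x : J) : x ≤ J.top := by cases x <;> trivial

theorem dir_cases (D : Set J) (h1 : D.Nonempty) (h2 : DirectedOn (· ≤ ·) D) :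
    (∃ a ∈ D, ∀ x ∈ D, x ≤ a) ∨
      ∃ m, IsLUB D (J.inf m) ∧ ∀ k, ∃ k', k ≤ k' ∧ J.fin m k' ∈ D := by
  by_cases ht : J.top ∈ D
  · exact Or.inl ⟨_, ht, fun x _ => le_top' x⟩
  by_cases hi : ∃ m, J.inf m ∈ D
  · obtain ⟨m, hm⟩ := hi
    refine Or.inl ⟨_, hm, fun x hx => ?_⟩
    obtain ⟨z, hz, h3, h4⟩ := h2 x hx _ hm
    cases z with
    | fin a b => exact h4.elim
    | inf a => obtain rfl : m = a := h4; exact h3
    | top => exact (ht hz).elim
  push Not at hi
  obtain ⟨x0, hx0⟩ := h1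
  obtain ⟨m, k0, rfl⟩ : ∃ m k, x0 = J.fin m k := by
    cases x0 with
    | fin a b => exact ⟨a, b, rfl⟩
    | inf a => exact (hi a hx0).elim
    | top => exact (ht hx0).elim
  have hall : ∀ x ∈ D, ∃ k, x = J.fin m k := by
    intro x hx
    obtain ⟨z, hz, h3, h4⟩ := h2 x hx _ hx0
    cases z with
    | fin a b =>
      cases x with
      | fin c d => exact ⟨d, by rw [h3.1, h4.1]⟩
      | inf c => exact h3.elim
      | top => exact h3.elim
    | inf a => exact (hi a hz).elim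
    | top => exact (ht hz).elim
  by_cases hb : ∀ k, ∃ k', k ≤ k' ∧ J.fin m k' ∈ D
  · refine Or.inr ⟨m, ⟨fun x hx => ?_, fun y hy => ?_⟩, hb⟩
    · obtain ⟨k, rfl⟩ := hall x hx
      exact Or.inl rfl
    · cases y with
      | fin a b =>
        obtain ⟨k', h3, h4⟩ := hb (b + 1)
        have := (hy h4).2
        omega
      | inf a =>
        obtain ⟨k', h3, h4⟩ := hb (a + 1)
        rcases hy h4 with h | h
        · exact h
        · omega
      | top => trivial
  · push Not at hb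
    obtain ⟨N, hN⟩ := hb
    classical
    have hk : ∀ k, J.fin m k ∈ D → k ≤ N := fun k hk => by
      by_contra h
      exact hN k (by omega) hk
    refine Or.inl ⟨J.fin m (Nat.findGreatest (fun k => J.fin m k ∈ D) N),
      Nat.findGreatest_spec (P := fun k => J.fin m k ∈ D) (hk k0 hx0) hx0, fun x hx => ?_⟩
    obtain ⟨k, rfl⟩ := hall x hx
    exact ⟨rfl, Nat.le_findGreatest (hk k hx) hx⟩

theorem dcpoJ : IsDcpo J := by
  intro D h1 h2
  rcases dir_cases D h1 h2 with ⟨a, ha, h⟩ | ⟨m, h, -⟩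
  · exact ⟨a, IsGreatest.isLUB ⟨ha, h⟩⟩
  · exact ⟨_, h⟩

theorem openJ {U : Set J} (h1 : IsUpperSet U) (h2 : ∀ m, J.inf m ∈ U → ∃ k, J.fin m k ∈ U) :
    IsOpen[scott J] U := by
  refine ⟨h1, fun D a h3 h4 h5 h6 => ?_⟩
  rcases dir_cases D h3 h4 with ⟨b, hb, h⟩ | ⟨m, h, h'⟩
  · obtain rfl : a = b := h5.unique (IsGreatest.isLUB ⟨hb, h⟩)
    exact ⟨a, hb, h6⟩
  · obtain rfl : a = J.inf m := h5.unique h
    obtain ⟨k, hk⟩ := h2 m h6
    obtain ⟨k', h7, h8⟩ := h' k
    exact ⟨_, h8, h1 (show J.fin m k ≤ J.fin m k' from ⟨rfl, h7⟩) hk⟩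

theorem openJ' {U : Set J} (h : IsOpen[scott J] U) (m : ℕ) (hm : J.inf m ∈ U) :
    ∃ k, J.fin m k ∈ U := by
  obtain ⟨_, ⟨k, rfl⟩, hk⟩ := h.2 (range (J.fin m)) (J.inf m) (range_nonempty _) (by
      rintro _ ⟨a, rfl⟩ _ ⟨b, rfl⟩
      exact ⟨_, ⟨max a b, rfl⟩, ⟨rfl, le_max_left _ _⟩, ⟨rfl, le_max_right _ _⟩⟩) (by
      refine ⟨?_, fun y hy => ?_⟩
      · rintro _ ⟨a, rfl⟩
        exact Or.inl rfl
      · cases y with
        | fin a b =>
          have := (hy ⟨b + 1, rfl⟩).2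
          omega
        | inf a =>
          rcases hy ⟨a + 1, rfl⟩ with h | h
          · exact h
          · omega
        | top => trivial) hm
  exact ⟨k, hk⟩

/-- The points outside the first `N + 1` rows and columns. -/
def Far (N : ℕ) : J → Prop
  | .fin m k => N < m ∧ N < k
  | .inf m => N < m
  | .top => True

theorem Far.mono {N N' : ℕ} (h : N ≤ N') {x : J} (hx : Far N' x) : Far N x := by
  cases x <;> simp only [Far] at hx ⊢ <;> omega

set_option warn.classDefReducibility false in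
def tau : TopologicalSpace J where
  IsOpen U := IsOpen[scott J] U ∧ (U = ∅ ∨ ∃ N, ∀ x, Far N x → x ∈ U)
  isOpen_univ := ⟨@isOpen_univ J (scott J), Or.inr ⟨0, fun _ _ => trivial⟩⟩
  isOpen_inter := by
    rintro U V ⟨hU, hU'⟩ ⟨hV, hV'⟩
    refine ⟨@IsOpen.inter J (scott J) _ _ hU hV, ?_⟩
    rcases hU' with rfl | ⟨N, hN⟩
    · simp
    rcases hV' with rfl | ⟨M, hM⟩
    · simp
    exact Or.inr ⟨max N M, fun x hx => ⟨hN x (hx.mono (le_max_left _ _)),
      hM x (hx.mono (le_max_right _ _))⟩⟩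
  isOpen_sUnion := by
    intro S hS
    refine ⟨@isOpen_sUnion J (scott J) _ fun U hU => (hS U hU).1, ?_⟩
    by_cases h : ∃ U ∈ S, U ≠ ∅
    · obtain ⟨U, hU, hU'⟩ := h
      obtain ⟨N, hN⟩ := (hS U hU).2.resolve_left hU'
      exact Or.inr ⟨N, fun x hx => ⟨U, hU, hN x hx⟩⟩
    · push Not at h
      exact Or.inl (sUnion_eq_empty.2 h)

theorem tau_Iic (x : J) : IsClosed[tau] (Iic x) := by
  refine (@isOpen_compl_iff J _ tau).1 ⟨(@isOpen_compl_iff J _ (scott J)).2 (closed_Iic x), ?_⟩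
  cases x with
  | fin m k =>
    refine Or.inr ⟨m, fun y hy h => ?_⟩
    cases y with
    | fin a b => have := hy.1; have := h.1; omega
    | inf a => exact h.elim
    | top => exact h.elim
  | inf m =>
    refine Or.inr ⟨m, fun y hy h => ?_⟩
    cases y with
    | fin a b => have := hy.1; have := hy.2; rcases h with h | h <;> omega
    | inf a => have : m < a := hy; have : a = m := h; omega
    | top => exact h.elim
  | top => exact Or.inl (by ext y; simp [le_top' y])

theorem tau_compat : Compatible tau := by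
  intro x
  let _ := tau
  refine (closure_minimal (singleton_subset_iff.2 self_mem_Iic) (tau_Iic x)).antisymm fun y hy => ?_
  rw [mem_closure_iff]
  intro U hU hyU
  exact ⟨x, hU.1.1 hy hyU, rfl⟩

def col : J → ℕ
  | .fin m _ => m
  | .inf m => m
  | .top => 0

theorem tau_wf : WellFiltered tau := by
  let _ := tau
  refine ⟨⟨fun x y h => le_antisymm ((h.mem_closed_iff (tau_Iic y)).2 (le_refl y))
    ((h.mem_closed_iff (tau_Iic x)).1 (le_refl x))⟩, fun F hne hd hF U hU hFU => ?_⟩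
  have hup : ∀ K ∈ F, IsUpperSet K := by
    intro K hK
    obtain ⟨S, hS, rfl⟩ := (hF K hK).2
    exact isUpperSet_sInter fun U hU => (hS U hU).1.1
  by_contra hn
  push Not at hn
  have htop : J.top ∈ U := hFU fun K hK => by
    obtain ⟨z, hz, -⟩ := not_subset.1 (hn K hK)
    exact hup K hK (le_top' z) hz
  obtain ⟨N, hN⟩ := hU.2.resolve_left (Nonempty.ne_empty ⟨_, htop⟩)
  obtain ⟨K0, hK0⟩ := hne
  let V : ℕ → Set J := fun n => {x | ∀ m k, x = J.fin m k → m ≤ n ∨ N < k}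
  have hV : ∀ n, IsOpen (V n) := by
    intro n
    refine ⟨openJ ?_ fun m _ => ⟨N + 1, fun a b h => ?_⟩, Or.inr ⟨N, fun x hx a b h => ?_⟩⟩
    · rintro x y hxy hx m k rfl
      cases x with
      | fin a b => have := hx a b rfl; have := hxy.1; have := hxy.2; omega
      | inf a => exact hxy.elim
      | top => exact hxy.elim
    · cases h; omega
    · subst h; exact Or.inr hx.2
  obtain ⟨n, hn0⟩ := (hF K0 hK0).1.elim_directed_cover V hV (fun x _ => by
      refine mem_iUnion.2 ⟨col x, ?_⟩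
      rintro m k rfl
      exact Or.inl (le_refl _)) (directed_of_isDirected_le fun a b hab x hx m k h => by
      have := hx m k h
      omega)
  have hcol : ∀ x ∈ K0, x ∉ U → col x ≤ max n N := by
    intro x hx hxU
    cases x with
    | fin a b =>
      have h1 := hn0 hx a b rfl
      have h2 : ¬ (N < a ∧ N < b) := fun h => hxU (hN _ h)
      show a ≤ max n N
      omega
    | inf a =>
      have h2 : ¬ (N < a) := fun h => hxU (hN _ h)
      show a ≤ max n N
      omega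
    | top => exact (hxU htop).elim
  have hm : ∃ m, ∀ K ∈ F, ∃ x ∈ K, x ∉ U ∧ col x = m := by
    by_contra h
    push Not at h
    have key : ∀ r : ℕ, ∃ K ∈ F, K ⊆ K0 ∧ ∀ x ∈ K, x ∉ U → r ≤ col x := by
      intro r
      induction r with
      | zero => exact ⟨K0, hK0, Subset.rfl, fun _ _ _ => Nat.zero_le _⟩
      | succ r ih =>
        obtain ⟨K, hK, h1, h2⟩ := ih
        obtain ⟨K', hK', h3⟩ := h r
        obtain ⟨M, hM, h4, h5⟩ := hd K hK K' hK'
        refine ⟨M, hM, h4.trans h1, fun x hx hxU => ?_⟩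
        have := h2 x (h4 hx) hxU
        have := h3 x (h5 hx) hxU
        omega
    obtain ⟨K, hK, h1, h2⟩ := key (max n N + 1)
    obtain ⟨z, hz, hz'⟩ := not_subset.1 (hn K hK)
    have := h2 z hz hz'
    have := hcol z (h1 hz) hz'
    omega
  obtain ⟨m, hm⟩ := hm
  by_cases hi : J.inf m ∈ U
  · obtain ⟨k, hk⟩ := openJ' hU.1 m hi
    classical
    have hx : ∀ K ∈ F, ∃ j, J.fin m j ∈ K ∧ J.fin m j ∉ U := by
      intro K hK
      obtain ⟨x, hx, h1, h2⟩ := hm K hK
      cases x with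
      | fin a b => obtain rfl : a = m := h2; exact ⟨b, hx, h1⟩
      | inf a => obtain rfl : a = m := h2; exact (h1 hi).elim
      | top => exact (h1 htop).elim
    have hj : ∀ j, J.fin m j ∉ U → j ≤ k := fun j hj => by
      by_contra h
      exact hj (hU.1.1 (show J.fin m k ≤ J.fin m j from ⟨rfl, by omega⟩) hk)
    obtain ⟨j0, -, hj0⟩ := hx K0 hK0
    refine Nat.findGreatest_spec (P := fun j => J.fin m j ∉ U) (hj j0 hj0) hj0 (hFU fun K hK => ?_)
    obtain ⟨j, h1, h2⟩ := hx K hK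
    exact hup K hK (show J.fin m j ≤ J.fin m _ from
      ⟨rfl, Nat.le_findGreatest (P := fun j => J.fin m j ∉ U) (hj j h2) h2⟩) h1
  · refine hi (hFU fun K hK => ?_)
    obtain ⟨x, hx, h1, h2⟩ := hm K hK
    cases x with
    | fin a b => exact hup K hK (show J.fin a b ≤ J.inf m from Or.inl h2) hx
    | inf a => obtain rfl : a = m := h2; exact hx
    | top => exact (h1 htop).elim

def KK (n : ℕ) : Set J := {x | x = J.top ∨ ∃ m, n ≤ m ∧ x = J.inf m}

theorem KK_compact (n : ℕ) : @IsCompact J (scott J) (KK n) := by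
  let _ := scott J
  refine isCompact_of_finite_subcover fun {ι} U hU hc => ?_
  classical
  have h : ∀ m, ∃ i, n ≤ m → J.inf m ∈ U i := by
    intro m
    obtain ⟨i, hi⟩ := mem_iUnion.1 (hc (Or.inr ⟨max m n, le_max_right _ _, rfl⟩))
    exact ⟨i, fun h => by rwa [max_eq_left h] at hi⟩
  choose g hg using h
  obtain ⟨k, hk⟩ := openJ' (hU (g n)) n (hg n le_rfl)
  refine ⟨insert (g n) ((Finset.range k).image g), ?_⟩
  rintro x (rfl | ⟨m, hm, rfl⟩)
  · exact mem_iUnion₂.2 ⟨g n, by simp, (hU _).1 (le_top' _) hk⟩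
  · by_cases hmk : m < k
    · exact mem_iUnion₂.2 ⟨g m, Finset.mem_insert_of_mem
        (Finset.mem_image_of_mem g (Finset.mem_range.2 hmk)), hg m hm⟩
    · exact mem_iUnion₂.2 ⟨g n, by simp,
        (hU _).1 (show J.fin n k ≤ J.inf m from Or.inr (by omega)) hk⟩

theorem not_wf : ¬ WellFiltered (scott (J × Unit)) := by
  intro h
  let L : ℕ → Set (J × Unit) := fun n => (fun x => (x, ())) '' KK n
  have hU : IsOpen[scott J] {J.top} := openJ (by
    rintro x y hxy rfl
    cases y with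
    | fin a b => exact hxy.elim
    | inf a => exact hxy.elim
    | top => rfl) (fun m h => by cases h)
  obtain ⟨_, ⟨n, rfl⟩, hn⟩ := h.2 (range L) (range_nonempty _) (by
      rintro _ ⟨a, rfl⟩ _ ⟨b, rfl⟩
      refine ⟨_, ⟨max a b, rfl⟩, image_mono ?_, image_mono ?_⟩ <;>
      · rintro x (rfl | ⟨m, hm, rfl⟩)
        · exact Or.inl rfl
        · exact Or.inr ⟨m, by omega, rfl⟩) (by
      rintro _ ⟨n, rfl⟩
      refine ⟨@IsCompact.image _ _ (scott J) (scott (J × Unit)) _ _ (KK_compact n) (cont_left ()),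
        sat_of_upper ?_⟩
      rintro _ ⟨y, u⟩ hxy ⟨x, hx, rfl⟩
      refine ⟨y, ?_, rfl⟩
      have hxy' : x ≤ y := hxy.1
      rcases hx with rfl | ⟨m, hm, rfl⟩ <;> cases y with
      | fin a b => exact hxy'.elim
      | inf a => first | exact hxy'.elim | exact Or.inr ⟨m, hm, by rw [show m = a from hxy']⟩
      | top => exact Or.inl rfl)
    (Prod.fst ⁻¹' {J.top}) (@IsOpen.preimage _ _ (scott (J × Unit)) (scott J) _ cont_fst _ hU) (by
      intro z hz
      obtain ⟨x, hx, rfl⟩ := hz _ ⟨col z.1 + 1, rfl⟩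
      rcases hx with rfl | ⟨m, hm, rfl⟩
      · rfl
      · have : m + 1 ≤ m := hm
        omega)
  have := hn ⟨J.inf n, Or.inr ⟨n, le_rfl, rfl⟩, rfl⟩
  cases this

theorem unit_wf : WFPoset Unit := by
  refine ⟨⊥, fun x => ?_, ?_, fun F hne _ _ U _ hFU => ?_⟩
  · let _ : TopologicalSpace Unit := ⊥
    refine (eq_univ_of_forall fun y => subset_closure rfl).trans (eq_univ_of_forall fun y => ?_).symm
    exact le_refl y
  · exact @T0Space.mk _ ⊥ fun x y _ => rfl
  · by_contra hn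
    push Not at hn
    obtain ⟨K0, hK0⟩ := hne
    obtain ⟨z, -, hz⟩ := not_subset.1 (hn K0 hK0)
    refine hz (hFU fun K hK => ?_)
    obtain ⟨w, hw, -⟩ := not_subset.1 (hn K hK)
    exact hw

/-- Q1 fails for well-filtered dcpos in the sense of a compatible well-filtered topology, and
holds for Scott well-filtered dcpos. -/
theorem result :
    (∃ (P Q : Type) (_ : PartialOrder P) (_ : PartialOrder Q),
      IsDcpo P ∧ IsDcpo Q ∧ WFPoset P ∧ WFPoset Q ∧ ¬ WellFiltered (scott (P × Q))) ∧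
    (∀ (P : Type u) (Q : Type v) [PartialOrder P] [PartialOrder Q], IsDcpo P → IsDcpo Q →
      WellFiltered (scott P) → WellFiltered (scott Q) → WellFiltered (scott (P × Q))) :=
  ⟨⟨J, Unit, inferInstance, inferInstance, dcpoJ, fun _ _ _ => ⟨(), fun _ _ => le_refl _,
    fun _ _ => le_refl _⟩, ⟨tau, tau_compat, tau_wf⟩, unit_wf, not_wf⟩,
    fun _ _ _ _ _ _ hP hQ => prod_wf hP hQ⟩

end Pool.Agent.Results.MP_70096d_gt.Products
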